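import Pool.Agent.Helper61.FN.GoalsD

/-!
# Project FN, packet FN-UC
-/

set_option autoImplicit false

namespace Pool.Agent.Helper18.FN

open Pool.Agent.Helper61.FN

theorem goalUC (hU : G_ULT) (hS : G_SQH) (hC : G_CFN) : G_UC := by
  by_contra hcon
  have h1 : ∀ C : ℕ, ∃ (p q m : ℕ) (ep : ℝ), ParC (p : ℝ) q m ep ∧
      (C : ℕ∞) < (Sols mC (cC (p : ℝ) q m ep) (dC (p : ℝ) q m ep)
        (2 * p + 2 * q + m + 2 * ep)).encard := by
    intro C
    by_contra h2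
    refine hcon ⟨C, fun p q m ep hp ↦ ?_⟩
    by_contra h3
    exact h2 ⟨p, q, m, ep, hp, not_le.1 h3⟩
  choose p q m ep hpar hlt using h1
  have h2 := hU (Fin 6) (Fin 20) mC (fun i ↦ cC (p i : ℝ) (q i) (m i) (ep i))
    (fun i ↦ dC (p i : ℝ) (q i) (m i) (ep i)) (fun i ↦ 2 * p i + 2 * q i + m i + 2 * ep i)
    (fun i ↦ (hlt i).le)
  set P : Hyperreal := Hyperreal.ofSeq fun i ↦ (p i : ℝ) with hP
  set Q : Hyperreal := Hyperreal.ofSeq fun i ↦ (q i : ℝ) with hQ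
  set M : Hyperreal := Hyperreal.ofSeq fun i ↦ (m i : ℝ) with hM
  set E : Hyperreal := Hyperreal.ofSeq ep with hE
  have hc : (fun j ↦ Hyperreal.ofSeq fun i ↦ cC (p i : ℝ) (q i) (m i) (ep i) j) = cC P Q M E := by
    funext j
    fin_cases j <;> rfl
  have hd : (fun e ↦ Hyperreal.ofSeq fun i ↦ dC (p i : ℝ) (q i) (m i) (ep i) e) = dC P Q M E := by
    funext j
    fin_cases j <;> rfl
  have hl : (Hyperreal.ofSeq fun i ↦ 2 * (p i : ℝ) + 2 * q i + m i + 2 * ep i) =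
      2 * P + 2 * Q + M + 2 * E := rfl
  have hpar' : ParC P Q M E := by
    refine ⟨?_, ?_, ?_, ?_, ?_, ?_⟩
    · exact Hyperreal.ofSeq_le_ofSeq.2 (Filter.Eventually.of_forall fun i ↦ (hpar i).p1)
    · exact Hyperreal.ofSeq_le_ofSeq.2 (Filter.Eventually.of_forall fun i ↦ (hpar i).q1)
    · exact Hyperreal.ofSeq_lt_ofSeq.2 (Filter.Eventually.of_forall fun i ↦ (hpar i).mu0)
    · have : (fun i ↦ ep i * ep i) = fun _ ↦ (1 : ℝ) := funext fun i ↦ (hpar i).ep2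
      have h3 : E * E = Hyperreal.ofSeq fun i ↦ ep i * ep i := rfl
      rw [h3, this]
      rfl
    · exact Hyperreal.ofSeq_lt_ofSeq.2 (Filter.Eventually.of_forall fun i ↦ (hpar i).ph0)
    · exact Hyperreal.ofSeq_lt_ofSeq.2 (Filter.Eventually.of_forall fun i ↦ (hpar i).ch0)
  have hlam : 2 * P + 2 * Q + M + 2 * E ≠ 0 := by
    have h3 := hpar'.ph0
    have h4 := hpar'.q1
    have h5 := hpar'.mu0
    intro h6
    linarith
  rw [hc, hd, hl] at h2
  exact h2 (hC Hyperreal hS P Q M E _ hpar' hlam)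

end Pool.Agent.Helper18.FN
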